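import Pool.Agent.W669.HD.Stm

/-!
# Project HD (helper669): adapted orthonormal bases
-/

set_option autoImplicit false

namespace Pool.Agent.W688.HD

open Pool.Agent.W669.HD

theorem adb : Pool.Agent.W669.HD.S_ADB := by
  classical
  intro m V _ _ e W hm hW
  have : FiniteDimensional ℝ V := e.toBasis.finiteDimensional_of_finite
  have hcard : Module.finrank ℝ V = Fintype.card (Fin m × Bool) :=
    Module.finrank_eq_card_basis e.toBasis
  have h4 : Fintype.card (Fin 4) ≤ Fintype.card (Fin m × Bool) := by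
    rw [Fintype.card_fin, Fintype.card_prod, Fintype.card_fin, Fintype.card_bool]
    omega
  obtain ⟨r⟩ := Function.Embedding.nonempty_of_card_le h4
  obtain ⟨b, hb⟩ : ∃ b : OrthonormalBasis (Fin (Module.finrank ℝ W)) ℝ W,
      b = stdOrthonormalBasis ℝ W := ⟨_, rfl⟩
  obtain ⟨f, hf⟩ : ∃ f : Fin (Module.finrank ℝ W) → Fin m × Bool,
      f = fun i => r (Fin.castLE hW i) := ⟨_, rfl⟩
  have hfi : Function.Injective f := by
    intro i j h
    rw [hf] at h
    have h1 := r.injective h
    exact Fin.castLE_injective hW h1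
  obtain ⟨v, hv⟩ : ∃ v : Fin m × Bool → V, v = Function.extend f (fun i => (b i : V)) 0 :=
    ⟨_, rfl⟩
  have hvf : ∀ i, v (f i) = (b i : V) := by
    intro i
    rw [hv]
    exact hfi.extend_apply _ _ i
  have hbo : Orthonormal ℝ (fun i => (b i : V)) :=
    b.orthonormal.comp_linearIsometry W.subtypeₗᵢ
  have hvo : Orthonormal ℝ ((Set.range f).domRestrict v) := by
    have h1 : (Set.range f).domRestrict v = (fun i => (b i : V)) ∘ (Equiv.ofInjective f hfi).symm := by
      funext x
      obtain ⟨x, i, rfl⟩ := x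
      have h2 : (Equiv.ofInjective f hfi).symm ⟨f i, i, rfl⟩ = i := by
        rw [Equiv.symm_apply_eq]
        rfl
      rw [Function.comp_apply, h2]
      exact hvf i
    rw [h1]
    exact hbo.comp _ (Equiv.ofInjective f hfi).symm.injective
  obtain ⟨e', he'⟩ := hvo.exists_orthonormalBasis_extension_of_card_eq hcard
  refine ⟨e', r, r.injective, ?_⟩
  intro j hj
  rw [Submodule.mem_orthogonal]
  intro u hu
  have h1 : ∀ i, inner ℝ (b i : V) (e' j) = 0 := by
    intro i
    have h2 : (b i : V) = e' (f i) := by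
      rw [he' (f i) ⟨i, rfl⟩, hvf i]
    rw [h2]
    apply e'.orthonormal.2
    intro h3
    apply hj (Fin.castLE hW i)
    rw [← h3, hf]
  have h2 : u = ∑ i, inner ℝ (b i) (⟨u, hu⟩ : W) • (b i : V) := by
    have h3 := b.sum_repr' (⟨u, hu⟩ : W)
    have h4 := congrArg (fun w : W => (w : V)) h3
    simp only [Submodule.coe_sum, Submodule.coe_smul] at h4
    exact h4.symm
  rw [h2, sum_inner]
  apply Finset.sum_eq_zero
  intro i _
  rw [inner_smul_left, h1 i, mul_zero]

end Pool.Agent.W688.HD
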