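import Pool.Agent.W669.HD.Stm
import Pool.Agent.W666.GB.Sec

/-!
# Project HD (helper669): basis independence of the Gauss-Bonnet-Chern integrand
-/

set_option autoImplicit false

namespace Pool.Agent.W688.HD

open Pool.Agent.W666.GB Pool.Agent.W669.HD Finset

section

variable {V : Type} [NormedAddCommGroup V] [InnerProductSpace ℝ V] {m : ℕ}

/-- product of the components -/
def TT (R : V → V → V → V → ℝ) (z u : Fin m × Bool → V) : ℝ :=
  ∏ b : Fin m, R (u (b, false)) (u (b, true)) (z (b, false)) (z (b, true))

theorem TT_split [DecidableEq (Fin m × Bool)] (R : V → V → V → V → ℝ) (z u : Fin m × Bool → V)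
    (b0 : Fin m) (β : Bool) (x : V) :
    TT R z (Function.update u (b0, β) x) =
      R (Function.update u (b0, β) x (b0, false)) (Function.update u (b0, β) x (b0, true))
        (z (b0, false)) (z (b0, true)) *
      ∏ b ∈ univ.erase b0, R (u (b, false)) (u (b, true)) (z (b, false)) (z (b, true)) := by
  unfold TT
  rw [← Finset.mul_prod_erase _ _ (Finset.mem_univ b0)]
  congr 1
  apply Finset.prod_congr rfl
  intro b hb
  have hb' : b ≠ b0 := Finset.ne_of_mem_erase hb
  rw [Function.update_of_ne (fun h => hb' (congrArg Prod.fst h)),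
    Function.update_of_ne (fun h => hb' (congrArg Prod.fst h))]

theorem TT_add [DecidableEq (Fin m × Bool)] {R : V → V → V → V → ℝ} (h : AlgCurv R)
    (z u : Fin m × Bool → V) (i : Fin m × Bool) (x y : V) :
    TT R z (Function.update u i (x + y)) =
      TT R z (Function.update u i x) + TT R z (Function.update u i y) := by
  obtain ⟨b0, β⟩ := i
  have h1 : ((b0, true) : Fin m × Bool) ≠ (b0, false) := by simp
  have h2 : ((b0, false) : Fin m × Bool) ≠ (b0, true) := by simp
  rw [TT_split, TT_split, TT_split]
  cases β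
  · simp only [Function.update_self, Function.update_of_ne h1, h.add]
    ring
  · simp only [Function.update_self, Function.update_of_ne h2, h.add2]
    ring

theorem TT_smul [DecidableEq (Fin m × Bool)] {R : V → V → V → V → ℝ} (h : AlgCurv R)
    (z u : Fin m × Bool → V) (i : Fin m × Bool) (t : ℝ) (x : V) :
    TT R z (Function.update u i (t • x)) = t * TT R z (Function.update u i x) := by
  obtain ⟨b0, β⟩ := i
  have h1 : ((b0, true) : Fin m × Bool) ≠ (b0, false) := by simp
  have h2 : ((b0, false) : Fin m × Bool) ≠ (b0, true) := by simp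
  rw [TT_split, TT_split]
  cases β
  · simp only [Function.update_self, Function.update_of_ne h1, h.smul]
    ring
  · simp only [Function.update_self, Function.update_of_ne h2, h.smul2]
    ring

/-- the multilinear map of the first arguments -/
noncomputable def MM {R : V → V → V → V → ℝ} (h : AlgCurv R) (v : Fin m × Bool → V) :
    MultilinearMap ℝ (fun _ : Fin m × Bool => V) ℝ where
  toFun u := ∑ τ : Equiv.Perm (Fin m × Bool),
    ((Equiv.Perm.sign τ : ℤ) : ℝ) * TT R (fun j => v (τ j)) u
  map_update_add' := by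
    intro _ u i x y
    rw [← Finset.sum_add_distrib]
    exact Finset.sum_congr rfl fun τ _ => by rw [TT_add h]; ring
  map_update_smul' := by
    intro _ u i t x
    rw [smul_eq_mul, Finset.mul_sum]
    exact Finset.sum_congr rfl fun τ _ => by rw [TT_smul h]; ring

/-- the double alternating sum -/
def GG (R : V → V → V → V → ℝ) (u v : Fin m × Bool → V) : ℝ :=
  ∑ σ : Equiv.Perm (Fin m × Bool), ∑ τ : Equiv.Perm (Fin m × Bool),
      ((Equiv.Perm.sign σ : ℤ) : ℝ) * ((Equiv.Perm.sign τ : ℤ) : ℝ) *
        ∏ b : Fin m, R (u (σ (b, false))) (u (σ (b, true))) (v (τ (b, false))) (v (τ (b, true)))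

theorem GG_eq {R : V → V → V → V → ℝ} (h : AlgCurv R) (u v : Fin m × Bool → V) :
    GG R u v = MultilinearMap.alternatization (MM h v) u := by
  rw [MultilinearMap.alternatization_apply]
  unfold GG
  apply Finset.sum_congr rfl
  intro σ _
  rw [Units.smul_def, zsmul_eq_mul]
  show _ = ((Equiv.Perm.sign σ : ℤ) : ℝ) * ∑ τ : Equiv.Perm (Fin m × Bool),
    ((Equiv.Perm.sign τ : ℤ) : ℝ) * TT R (fun j => v (τ j)) (fun i => u (σ i))
  rw [Finset.mul_sum]
  apply Finset.sum_congr rfl
  intro τ _
  unfold TT
  ring

theorem GG_symm {R : V → V → V → V → ℝ} (h : AlgCurv R) (u v : Fin m × Bool → V) :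
    GG R u v = GG R v u := by
  unfold GG
  rw [Finset.sum_comm]
  apply Finset.sum_congr rfl
  intro τ _
  apply Finset.sum_congr rfl
  intro σ _
  rw [mul_comm ((Equiv.Perm.sign σ : ℤ) : ℝ)]
  congr 1
  exact Finset.prod_congr rfl fun b _ => (h.pair _ _ _ _).symm

theorem GG_change {R : V → V → V → V → ℝ} (h : AlgCurv R)
    (e e' : OrthonormalBasis (Fin m × Bool) ℝ V) (v : Fin m × Bool → V) :
    GG R e' v = GG R e v * e.toBasis.det e' := by
  rw [GG_eq h, GG_eq h]
  have h1 := AlternatingMap.eq_smul_basis_det e.toBasis (MultilinearMap.alternatization (MM h v))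
  have h2 := congrArg (fun f : V [⋀^(Fin m × Bool)]→ₗ[ℝ] ℝ => f e') h1
  simp only [AlternatingMap.smul_apply, smul_eq_mul, OrthonormalBasis.coe_toBasis] at h2
  exact h2

end

theorem bas : Pool.Agent.W669.HD.S_BAS := by
  intro m V _ _ e e' R hR
  have h1 : GG R e' e' = GG R e e := by
    rw [GG_change hR e e' e', GG_symm hR e e', GG_change hR e e' e]
    rcases e.det_to_matrix_orthonormalBasis_real e' with h | h
    · rw [h]; ring
    · rw [h]; ring
  unfold gbc
  congr 1
  exact h1.symm

end Pool.Agent.W688.HD
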